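import Pool.Agent.Helper74.CO.Goals

/-!
# Project CO, packet GOODW: the Welch arrays are good
-/

set_option autoImplicit false

namespace Pool.Agent.Helper97.CO

open Finset Pool.Agent.Helper74.CO

theorem card_Xw (p : ℕ) [Fact p.Prime] (e v : ZMod p) : (p : ℝ) - 3 ≤ #(Xw e v) := by
  have h1 : (univ : Finset (ZMod p)) \ {0, v, e} ⊆ Xw e v := by
    intro x hx
    simp only [mem_sdiff, mem_univ, true_and, mem_insert, mem_singleton, not_or] at hx
    simp only [Xw, mem_filter, mem_univ, true_and]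
    exact hx
  have h2 := card_le_card h1
  have h3 := le_card_sdiff ({0, v, e} : Finset (ZMod p)) (univ : Finset (ZMod p))
  rw [card_univ, ZMod.card] at h3
  have h4 : #({0, v, e} : Finset (ZMod p)) ≤ 3 := card_le_three
  have h5 : p ≤ #(Xw e v) + 3 := by omega
  have h6 : (p : ℝ) ≤ #(Xw e v) + 3 := by exact_mod_cast h5
  linarith

theorem key (hWSOL : WSOL) (hIND : IND) {K : ℕ} {κ η₀ ε₀ : ℝ} (hη : 0 < η₀)
    (B1 : Bump1 K κ η₀ ε₀) (p : ℕ) [Fact p.Prime] (g c : ZMod p) (h5 : 5 ≤ p) (hg : Gen g)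
    (hc : c ≠ 0) (u v : ℤ) (hve : (v : ZMod p) ≠ c * g ^ u)
    (hE3 : Eq3 (Xw (c * g ^ u) (v : ZMod p)) (aw p g c)
      (fun x => aw p g c (Mw (c * g ^ u) (v : ZMod p) x)) (cw p) K κ)
    (hE2 : Eq2 (Xw (c * g ^ u) (v : ZMod p)) (cw p)
      (fun x => cw p (Mw (c * g ^ u) (v : ZMod p) x)) K κ)
    (hu1 : -(3 / 10 : ℝ) * (p - 1 : ℕ) ≤ u) (hu2 : (u : ℝ) ≤ 13 / 10 * (p - 1 : ℕ))
    (hv1 : -ε₀ * p ≤ v) (hv2 : (v : ℝ) ≤ (1 + ε₀) * p) :
    η₀ / 2 * (p - 1 : ℕ) ≤ #(sols (Wa p g c) (u, v)) := by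
  have hcard : Fintype.card (ZMod p) = p := ZMod.card p
  obtain ⟨g0, _, gind, _⟩ := hIND (ZMod p) g hg (by omega)
  rw [hcard] at gind
  have he : c * g ^ u ≠ 0 := mul_ne_zero hc (zpow_ne_zero _ g0)
  have hcast : ((p - 1 : ℕ) : ℝ) = (p : ℝ) - 1 := by
    rw [Nat.cast_sub (by omega), Nat.cast_one]
  have hp1 : (0 : ℝ) < (p : ℝ) - 1 := by
    have : (5 : ℝ) ≤ p := by exact_mod_cast h5
    linarith
  have hp0 : (0 : ℝ) < (p : ℝ) := by linarith
  rw [hcast] at hu1 hu2 ⊢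
  have haw : ∀ y : ZMod p, y ≠ 0 → 0 ≤ aw p g c y ∧ aw p g c y < 1 := by
    intro y hy
    have h1 := (gind (y / c) (div_ne_zero hy hc)).2
    have h2 : ((ind g (y / c) : ℕ) : ℝ) < (p : ℝ) - 1 := by exact_mod_cast h1
    unfold aw
    constructor
    · positivity
    · rw [div_lt_one hp1]
      exact h2
  have hcw : ∀ y : ZMod p, 0 ≤ cw p y ∧ cw p y < 1 := by
    intro y
    unfold cw
    constructor
    · positivity
    · rw [div_lt_one hp0]
      exact_mod_cast ZMod.val_lt y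
  have hX : ∀ x ∈ Xw (c * g ^ u) (v : ZMod p), x ≠ 0 ∧ x ≠ (v : ZMod p) ∧ x ≠ c * g ^ u := by
    intro x hx
    simpa only [Xw, mem_filter, mem_univ, true_and] using hx
  have hM : ∀ x ∈ Xw (c * g ^ u) (v : ZMod p), Mw (c * g ^ u) (v : ZMod p) x ≠ 0 := by
    intro x hx
    obtain ⟨_, h2, h3⟩ := hX x hx
    unfold Mw
    exact div_ne_zero (mul_ne_zero he (sub_ne_zero.2 h2)) (sub_ne_zero.2 h3)
  have h1 := B1 (ZMod p) (Xw (c * g ^ u) (v : ZMod p)) (aw p g c)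
    (fun x => aw p g c (Mw (c * g ^ u) (v : ZMod p) x)) (cw p)
    (fun x => cw p (Mw (c * g ^ u) (v : ZMod p) x)) (u / ((p : ℝ) - 1)) (v / (p : ℝ))
    (fun x hx => haw x (hX x hx).1) (fun x hx => haw _ (hM x hx)) (fun x _ => hcw x)
    (fun x _ => hcw _) hE3 hE2
    (by rw [le_div_iff₀ hp1]; exact hu1) (by rw [div_le_iff₀ hp1]; exact hu2)
    (by rw [le_div_iff₀ hp0]; exact hv1) (by rw [div_le_iff₀ hp0]; exact hv2)
  have h2 := hWSOL p g c u v (by omega) hg hc hve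
  have h3 : (#((Xw (c * g ^ u) (v : ZMod p)).filter (fun x =>
    (0 ≤ aw p g c x + aw p g c (Mw (c * g ^ u) (v : ZMod p) x) - u / ((p : ℝ) - 1) ∧
      aw p g c x + aw p g c (Mw (c * g ^ u) (v : ZMod p) x) - u / ((p : ℝ) - 1) < 1) ∧
    (0 ≤ cw p x + cw p (Mw (c * g ^ u) (v : ZMod p) x) - v / (p : ℝ) ∧
      cw p x + cw p (Mw (c * g ^ u) (v : ZMod p) x) - v / (p : ℝ) < 1))) : ℝ) ≤
      #(sols (Wa p g c) (u, v)) := by exact_mod_cast h2
  have h4 := card_Xw p (c * g ^ u) (v : ZMod p)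
  have h6 : η₀ * ((p : ℝ) - 3) ≤ η₀ * #(Xw (c * g ^ u) (v : ZMod p)) :=
    mul_le_mul_of_nonneg_left h4 hη.le
  have h7 : (5 : ℝ) ≤ p := by exact_mod_cast h5
  have h8 : η₀ / 2 * ((p : ℝ) - 1) ≤ η₀ * ((p : ℝ) - 3) := by nlinarith
  exact h8.trans (h6.trans (h1.trans h3))

theorem t_GOODW (hBUMPS : BUMPS) (hWPAT : WPAT) (hWSOL : WSOL) (hWB : WB) (hWP : WP) (hWE : WE)
    (hIND : IND) : GOODW := by
  classical
  obtain ⟨K, κ, η₀, ε₀, hκ, hη, hε, _, B1, _, _⟩ := hBUMPS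
  obtain ⟨q1, hq1⟩ := hWB K κ hκ
  obtain ⟨q2, hq2⟩ := hWP K κ hκ
  obtain ⟨q3, C₀, hq3⟩ := hWE K κ hκ
  refine ⟨η₀ / 2, min ε₀ (1 / 10), 9 * C₀, q1 + q2 + q3 + 5, by positivity,
    lt_min hε (by norm_num), ?_⟩
  intro p _ g c hN hg hc
  have h5 : 5 ≤ p := by omega
  have hcard : Fintype.card (ZMod p) = p := ZMod.card p
  obtain ⟨g0, _, _, gpow⟩ := hIND (ZMod p) g hg (by omega)
  rw [hcard] at gpow
  obtain ⟨w1, w2, w3, w4⟩ := hWPAT p g c (by omega) hg hc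
  have he : ∀ u : ℤ, c * g ^ u ≠ 0 := fun u => mul_ne_zero hc (zpow_ne_zero _ g0)
  have hcast : ((p - 1 : ℕ) : ℝ) = (p : ℝ) - 1 := by
    rw [Nat.cast_sub (by omega), Nat.cast_one]
  have hcastZ : ((p - 1 : ℕ) : ℤ) = (p : ℤ) - 1 := by
    rw [Nat.cast_sub (by omega), Nat.cast_one]
  have h5R : (5 : ℝ) ≤ p := by exact_mod_cast h5
  have hε1 : min ε₀ (1 / 10) ≤ ε₀ := min_le_left _ _
  have hε2 : min ε₀ (1 / 10) ≤ 1 / 10 := min_le_right _ _
  have hε0 : 0 < min ε₀ (1 / 10) := lt_min hε (by norm_num)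
  set ε := min ε₀ (1 / 10) with hεdef
  refine ⟨Or.inl rfl, w1, w2, w3, w4, ?_, ?_⟩
  · intro u v hu1 hu2 hv
    have hv0 : (v : ZMod p) = 0 := by
      rcases hv with rfl | rfl
      · simp
      · rw [hcastZ]
        push_cast
        simp
    have hvR : (v : ℝ) = 0 ∨ (v : ℝ) = p := by
      rcases hv with rfl | rfl
      · left
        simp
      · right
        push_cast
        rw [hcast]
        ring
    have hve : (v : ZMod p) ≠ c * g ^ u := by
      rw [hv0]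
      exact (he u).symm
    have hE3 := hq1 p g c (c * g ^ u) (by omega) hg hc (he u)
    have hE2 := hq2 p (c * g ^ u) (v : ZMod p) (by omega) (he u) hve
    rw [← hv0] at hE3
    refine key hWSOL hIND hη B1 p g c h5 hg hc u v hve hE3 hE2 hu1 hu2 ?_ ?_
    · rcases hvR with h | h <;> rw [h] <;> nlinarith
    · rcases hvR with h | h <;> rw [h] <;> nlinarith
  · intro S hS
    set Φ : ℤ × ℤ → ZMod p × ZMod p := fun P => (c * g ^ P.1, (P.2 : ZMod p)) with hΦ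
    have h1 : #(S.image Φ) ≤ C₀ := by
      refine hq3 p g c (S.image Φ) (by omega) hg hc ?_
      intro Q hQ
      obtain ⟨P, hP, rfl⟩ := mem_image.1 hQ
      obtain ⟨s1, s2, s3, s4, s5, s6⟩ := hS P hP
      have hve : (P.2 : ZMod p) ≠ c * g ^ P.1 := fun h => s1 h.symm
      refine ⟨he P.1, hve, fun hE3 => ?_⟩
      have hE2 := hq2 p (c * g ^ P.1) (P.2 : ZMod p) (by omega) (he P.1) hve
      rw [hcast] at s2 s3 s4 s5
      have hk := key hWSOL hIND hη B1 p g c h5 hg hc P.1 P.2 hve hE3 hE2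
        (by rw [hcast]; nlinarith) (by rw [hcast]; nlinarith) (by nlinarith) (by nlinarith)
      exact absurd s6 (not_lt.2 hk)
    have h2 : #S ≤ 9 * #(S.image Φ) := by
      refine card_le_mul_card_image S 9 ?_
      intro b _
      have hinj : Set.InjOn (fun P : ℤ × ℤ => (P.1 / ((p : ℤ) - 1), P.2 / (p : ℤ)))
          (S.filter (fun P => Φ P = b) : Set (ℤ × ℤ)) := by
        intro P hP Q hQ hPQ
        have hP' := (mem_filter.1 (mem_coe.1 hP)).2
        have hQ' := (mem_filter.1 (mem_coe.1 hQ)).2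
        have hΦPQ : Φ P = Φ Q := hP'.trans hQ'.symm
        have e1 : c * g ^ P.1 = c * g ^ Q.1 := congrArg Prod.fst hΦPQ
        have e2 : (P.2 : ZMod p) = (Q.2 : ZMod p) := congrArg Prod.snd hΦPQ
        have e3 : g ^ P.1 = g ^ Q.1 := mul_left_cancel₀ hc e1
        have e4 : P.1 % ((p : ℤ) - 1) = Q.1 % ((p : ℤ) - 1) :=
          (Int.emod_eq_emod_iff_emod_sub_eq_zero).2
            (Int.emod_eq_zero_of_dvd ((gpow P.1 Q.1).1 e3))
        have e5 : P.2 % (p : ℤ) = Q.2 % (p : ℤ) := (ZMod.intCast_eq_intCast_iff' _ _ p).1 e2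
        have f1 : P.1 / ((p : ℤ) - 1) = Q.1 / ((p : ℤ) - 1) := congrArg Prod.fst hPQ
        have f2 : P.2 / (p : ℤ) = Q.2 / (p : ℤ) := congrArg Prod.snd hPQ
        ext
        · rw [← Int.mul_ediv_add_emod P.1 ((p : ℤ) - 1), f1, e4, Int.mul_ediv_add_emod]
        · rw [← Int.mul_ediv_add_emod P.2 (p : ℤ), f2, e5, Int.mul_ediv_add_emod]
      have hmaps : ∀ P ∈ S.filter (fun P => Φ P = b),
          (P.1 / ((p : ℤ) - 1), P.2 / (p : ℤ)) ∈ (Icc (-1 : ℤ) 1) ×ˢ (Icc (-1 : ℤ) 1) := by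
        intro P hP
        obtain ⟨s1, s2, s3, s4, s5, s6⟩ := hS P (mem_filter.1 hP).1
        rw [hcast] at s2 s3 s4 s5
        have a1 : (-((p : ℝ) - 1)) ≤ P.1 := by nlinarith
        have a2 : (P.1 : ℝ) < 2 * ((p : ℝ) - 1) := by nlinarith
        have a3 : (-(p : ℝ)) ≤ P.2 := by nlinarith
        have a4 : (P.2 : ℝ) < 2 * (p : ℝ) := by nlinarith
        have b1 : (-((p : ℤ) - 1)) ≤ P.1 := by exact_mod_cast a1
        have b2 : P.1 < 2 * ((p : ℤ) - 1) := by exact_mod_cast a2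
        have b3 : (-(p : ℤ)) ≤ P.2 := by exact_mod_cast a3
        have b4 : P.2 < 2 * (p : ℤ) := by exact_mod_cast a4
        have hp1 : (0 : ℤ) < (p : ℤ) - 1 := by omega
        have hp0 : (0 : ℤ) < (p : ℤ) := by omega
        rw [mem_product, mem_Icc, mem_Icc]
        refine ⟨⟨?_, ?_⟩, ⟨?_, ?_⟩⟩
        · rw [Int.le_ediv_iff_mul_le hp1]
          linarith
        · have : P.1 / ((p : ℤ) - 1) < 2 := by
            rw [Int.ediv_lt_iff_lt_mul hp1]
            linarith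
          simp only
          omega
        · rw [Int.le_ediv_iff_mul_le hp0]
          linarith
        · have : P.2 / (p : ℤ) < 2 := by
            rw [Int.ediv_lt_iff_lt_mul hp0]
            linarith
          simp only
          omega
      have h3 := card_le_card_of_injOn _ hmaps hinj
      refine h3.trans ?_
      rw [card_product]
      decide
    calc #S ≤ 9 * #(S.image Φ) := h2
      _ ≤ 9 * C₀ := Nat.mul_le_mul_left _ h1

end Pool.Agent.Helper97.CO
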